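import Pool.Agent.Helper48.FLF.Row

/-! FLF for zooms `z : RW s N` in flag rows (`Flg`) over a literal K-label `V`, frame over a literal K-label `X ≥ V`. -/

set_option autoImplicit false

namespace Pool.Agent.Helper48.FLF

open Finset Filter Topology MvPolynomial Pool.Agent.Helper69.RK Pool.Agent.Helper31.EC Pool.Agent.Helper31.EC.Sp
open Pool.Agent.Helper40.EL Pool.Agent.Helper84.MT Pool.Agent.Helper89.LX Pool.Agent.Helper3.LF
open Pool.Agent.Helper95.LF Pool.Agent.Helper7.GZ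
open Pool.Agent.Helper36.AM (Frm)
open Pool.Agent.Helper7.RD (RW PZ)
open Pool.Agent.Helper70.CPW (zuz)
open Pool.Agent.Helper18.TRF (h_ovr)
open Pool.Agent.Helper29.MX

noncomputable section

variable {S : Sp} {N : ℕ} {E : ℕ → ℕ} {ι : Type} {s : MSys S N E ι} {R X V : Rsl S}

/-- conditional entropies over the label, the coarser label is known to the label -/
theorem nul_of_ple {u : ℝ} {hu : 0 < u} (hVX : ∀ᶠ k in UF, V k ≤ X k) {A B : ∀ k, Setoid (S.F k).Ω}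
    (h : PLe (S := (Lab.ofZ V).ovr u hu) (fun k => fc (A k)) (fun k => fc (X k ⊓ B k : Setoid (S.F k).Ω))) :
    Nul S fun k => Pool.Agent.Helper31.EC.h (fc (A k) : FL (S.F k)) (fc (V k) ⊔ fc (B k)) := by
  have h3 : Nul S fun k => Pool.Agent.Helper31.EC.h (fc (A k) : FL (((Lab.ofZ V).ovr u hu).F k))
    (fc (X k ⊓ B k : Setoid (S.F k).Ω)) := (Lab.nul_over (Lab.ofZ V) u hu).mp h
  refine Tendsto.congr' ?_ h3
  filter_upwards [hVX] with k hk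
  have e1 : Pool.Agent.Helper31.EC.h (fc (A k) : FL (((Lab.ofZ V).ovr u hu).F k))
    (fc (X k ⊓ B k : Setoid (S.F k).Ω)) = Pool.Agent.Helper31.EC.h (fc (A k) : FL (S.F k))
      (fc (V k) ⊔ fc (X k ⊓ B k : Setoid (S.F k).Ω)) := h_ovr (Lab.ofZ V) u hu k _ _
  have e2 : (fc (V k) ⊔ fc (X k ⊓ B k : Setoid (S.F k).Ω) : FL (S.F k)) = fc (V k) ⊔ fc (B k) := by
    have e3 : (fc (X k ⊓ B k : Setoid (S.F k).Ω) : FL (S.F k)) = fc (X k) ⊔ fc (B k) := fc_inf _ _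
    rw [e3, ← sup_assoc]
    congr 1
    exact sup_eq_left.mpr (fc_mono hk)
  rw [e1, e2]

/-- **FLF**: the cells of the rows are known to the label and the cells of the frame -/
theorem flf_zf [Finite ι] {w : Fin N → ℝ} (hw : ∀ j, 1 ≤ w j) {c u : ℝ} (hwe : ∀ j, w j * c + u ≤ 1)
    (hn : N - (∑ j, w j) * c ≤ volKO s R c) (hXK : KLb s R c (Lab.ofZ X))
    (f : Frm s.Q (Lab.ofZ X) fun j => w j * c) (z : RW s N) (hZ : z.Z.l = Lab.ofZ V) (hc : z.Z.c = c)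
    (hu : z.Z.u = u) (hVX : ∀ᶠ k in UF, V k ≤ X k) (hK : KLb s R c z.Z.l) {b : ℝ} (hb0 : 0 ≤ b) (hb1 : b ≤ 1) :
    Nul S fun k => h (fc (Setoid.ker (z.X.cellv b k)) : FL (z.Z.l k).T)
      ((z.Z.l k).v ⊔ (z.Z.l k).p.map (fc (Setoid.ker (f.X.cellv (u * b) k) : Setoid (S.F k).Ω))) := by
  obtain ⟨⟨l, c', u', h0', hu', h1'⟩, hcz, dm, D, Λ, Rr, Xz, hX, κ, hκ1, he, hκ⟩ := z
  dsimp only at hZ hc hu hK
  subst hZ
  subst hc
  subst hu
  have key := zf_ple (z := (⟨D, Λ, Rr, Xz, hX⟩ : PZ (zuz V c' u' h0' hu' h1') s.Q N)) hK hXK f hw hwe hn hb0 hb1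
  exact nul_of_ple (hu := hu') hVX (A := fun k => (Setoid.ker (Xz.cellv b k) : Setoid (S.F k).Ω))
    (B := fun k => (Setoid.ker (f.X.cellv (u' * b) k) : Setoid (S.F k).Ω)) key

/-- **FLF**: the cells of the frame are known to the label and the cells of the flag rows -/
theorem flf_fz [Finite ι] {w : Fin N → ℝ} (hw : ∀ j, 1 ≤ w j) {c u : ℝ} (hwe : ∀ j, w j * c + u ≤ 1)
    (hn : N - (∑ j, w j) * c ≤ volKO s R c) (hXK : KLb s R c (Lab.ofZ X))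
    (f : Frm s.Q (Lab.ofZ X) fun j => w j * c) (z : RW s N) (hZ : z.Z.l = Lab.ofZ V) (hc : z.Z.c = c)
    (hu : z.Z.u = u) (hVX : ∀ᶠ k in UF, V k ≤ X k) (hK : KLb s R c z.Z.l) (hf : Flg z fun j => w j * c) {b : ℝ}
    (hb0 : 0 ≤ b) (hb1 : b ≤ 1) :
    Nul S fun k => h ((z.Z.l k).p.map (fc (Setoid.ker (f.X.cellv (u * b) k) : Setoid (S.F k).Ω)))
      ((z.Z.l k).v ⊔ (fc (Setoid.ker (z.X.cellv b k)) : FL (z.Z.l k).T)) := by
  obtain ⟨⟨l, c', u', h0', hu', h1'⟩, hcz, dm, D, Λ, Rr, Xz, hX, κ, hκ1, he, hκ⟩ := z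
  dsimp only at hZ hc hu hK
  subst hZ
  subst hc
  subst hu
  have tri : ∀ k (ω : (S.F k).Ω) (j : Fin N), ∀ i ∈ (Rr.p k ω j).vars, i ≤ j := hf.tri
  have ex : ∀ e : ℝ, 0 < e → Typ (S := S) (fun k (ω : (S.F k).Ω) => ∀ j : Fin N,
      2 ^ ((w j * c' - e) * (S.F k).n) ≤ |eval (s.Q.v k ω) (pderiv j (Rr.p k ω j))|) := fun e he =>
    (show Typ (S := S) (fun k (ω : (S.F k).Ω) => ∀ j : Fin N,
      2 ^ ((w j * c' - e) * (S.F k).n) ≤ |eval (s.Q.v k ω) (pderiv j (Rr.p k ω j))| ∧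
        |eval (s.Q.v k ω) (pderiv j (Rr.p k ω j))| ≤ 2 ^ ((w j * c' + e) * (S.F k).n)) from hf.ex e he).mono
      (Eventually.of_forall fun k ω _ hh j => (hh j).1)
  have key := fz_ple (z := (⟨D, Λ, Rr, Xz, hX⟩ : PZ (zuz V c' u' h0' hu' h1') s.Q N)) hK hXK f hw hwe hn tri ex
    hb0 hb1
  exact nul_of_ple (hu := hu') hVX (A := fun k => (Setoid.ker (f.X.cellv (u' * b) k) : Setoid (S.F k).Ω))
    (B := fun k => (Setoid.ker (Xz.cellv b k) : Setoid (S.F k).Ω)) key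

/-- **DEFICIT OF THE BOX** of the frame over `X` from the entropy of the point of the zoom -/
theorem flf_dfc [Finite ι] {w : Fin N → ℝ} (hw : ∀ j, 1 ≤ w j) {c u : ℝ} (hwe : ∀ j, w j * c + u ≤ 1)
    (hn : N - (∑ j, w j) * c ≤ volKO s R c) (hXK : KLb s R c (Lab.ofZ X))
    (f : Frm s.Q (Lab.ofZ X) fun j => w j * c) (z : RW s N) (hZ : z.Z.l = Lab.ofZ V) (hc : z.Z.c = c)
    (hu : z.Z.u = u) (hVX : ∀ᶠ k in UF, V k ≤ X k) (hXV : Nul S fun k => h (fc (V k)) (fc (X k)))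
    (hK : KLb s R c z.Z.l) (hf : Flg z fun j => w j * c) {b d : ℝ}
    (hb0 : 0 ≤ b) (hb1 : b ≤ 1) (hd : H (z.X.dg b) ≤ d) :
    ul (fun k => h (fc (Setoid.ker (f.X.cellv (u * b) k)) : FL (Lab.ofZ X k).T) (Lab.ofZ X k).v / (S.F k).n) ≤
      u * d := by
  obtain ⟨⟨l, c', u', h0', hu', h1'⟩, hcz, dm, D, Λ, Rr, Xz, hX, κ, hκ1, he, hκ⟩ := z
  dsimp only at hZ hc hu hK
  subst hZ
  subst hc
  subst hu
  have tri : ∀ k (ω : (S.F k).Ω) (j : Fin N), ∀ i ∈ (Rr.p k ω j).vars, i ≤ j := hf.tri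
  have ex : ∀ e : ℝ, 0 < e → Typ (S := S) (fun k (ω : (S.F k).Ω) => ∀ j : Fin N,
      2 ^ ((w j * c' - e) * (S.F k).n) ≤ |eval (s.Q.v k ω) (pderiv j (Rr.p k ω j))|) := fun e he =>
    (show Typ (S := S) (fun k (ω : (S.F k).Ω) => ∀ j : Fin N,
      2 ^ ((w j * c' - e) * (S.F k).n) ≤ |eval (s.Q.v k ω) (pderiv j (Rr.p k ω j))| ∧
        |eval (s.Q.v k ω) (pderiv j (Rr.p k ω j))| ≤ 2 ^ ((w j * c' + e) * (S.F k).n)) from hf.ex e he).mono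
      (Eventually.of_forall fun k ω _ hh j => (hh j).1)
  have hVX' : Nul S fun k => h (fc (X k)) (fc (V k)) := by
    refine Tendsto.congr' ?_ (Nul_zero S)
    filter_upwards [hVX] with k hk
    rw [h_zero (fc_mono hk)]
  exact frm_dfc (z := (⟨D, Λ, Rr, Xz, hX⟩ : PZ (zuz V c' u' h0' hu' h1') s.Q N)) hK hXK f hw hwe hn tri ex
    hXV hVX' hb0 hb1 hd

end

end Pool.Agent.Helper48.FLF
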