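import Pool.Agent.Helper56.R0.Row0

/-! BRANCHES: a coordinate at which a polynomial of bounded degree, which depends on the class only up to the resolution, is
small and has a large derivative is known to the class, up to the resolution. -/

set_option autoImplicit false

namespace Pool.Agent.Helper48.FLF

open Finset Filter Topology Pool.Agent.Helper69.RK Pool.Agent.Helper31.EC Pool.Agent.Helper31.EC.Sp
open Pool.Agent.Helper40.EL Pool.Agent.Helper89.LX Pool.Agent.Helper3.LF Pool.Agent.Helper84.MT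
open Pool.Agent.Helper7.GZ Pool.Agent.Helper75.CC
open Pool.Agent.Helper56.R0 (two_close exists_rp nul_fin')

noncomputable section

variable {S : Sp}

/-- **BRANCHES.** For each point `ω` a polynomial `q k ω` of bounded degree; at the good points `ω'` of the class of `ω` it is
at most `K dl r` and its derivative is at least `1 / L`. Then the cells of level `r` are known to the classes. -/
theorem kn_branch (y : S.VV 1) {r : ℝ} (D : ℕ) (B : ∀ k, Setoid (S.F k).Ω) (q : ∀ k, (S.F k).Ω → Polynomial ℝ)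
    (hD : ∀ k ω, (q k ω).natDegree ≤ D) {G : ∀ k, (S.F k).Ω → Prop} (hG : S.Typ G) {K L : ℕ → ℝ} (hK : S.Sub K)
    (hL : S.Sub L) (hv : ∀ᶠ k in UF, ∀ ω ω', (S.F k).μ ω ≠ 0 → (S.F k).μ ω' ≠ 0 → G k ω → G k ω' → (S.F k).Z ω ω' →
      B k ω ω' → |(q k ω).eval (y.v k ω' 0)| ≤ K k * S.dl r k ∧
        1 ≤ L k * |(q k ω).derivative.eval (y.v k ω' 0)|) :
    PLe (S := S) (fun k => fc (Setoid.ker (y.cellv r k))) (fun k => fc (B k)) := by
  classical
  obtain ⟨C₀, hC, hC'⟩ := two_close D
  set n : ℕ := 2 * (D + 1) + 1 with hn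
  set T : ℕ → ℝ := fun k => C₀ * ((K k + 1) * (L k + 1)) with hTd
  set g : ∀ k, (S.F k).Ω → (S.F k).Ω → Prop := fun k ω ω' => (S.F k).μ ω' ≠ 0 ∧ (S.F k).Z ω ω' ∧ B k ω ω' ∧
    G k ω' with hg
  have key : ∀ᶠ k in UF, ∀ ω, ∃ R : Fin n → ℝ, ∀ a, g k ω a → ∃ i, |y.v k a 0 - R i| ≤ T k * S.dl r k := by
    filter_upwards [hv, hK.1, hL.1] with k hvk hK0 hL0 ω
    by_cases hex : ∃ a0, g k ω a0
    · obtain ⟨a0, b1, b2, b3, b4⟩ := hex
      have hd := S.dl_pos r k
      refine exists_rp n (fun a => y.v k a 0) (T k * S.dl r k) ?_ (g k ω) fun f hf => ?_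
      · have : 0 ≤ T k := by
          show 0 ≤ C₀ * ((K k + 1) * (L k + 1))
          positivity
        positivity
      · have hval : ∀ i, |(q k a0).eval (y.v k (f i) 0)| ≤ K k * S.dl r k ∧
            1 ≤ L k * |(q k a0).derivative.eval (y.v k (f i) 0)| := fun i => by
          obtain ⟨c1, c2, c3, c4⟩ := hf i
          exact hvk a0 (f i) b1 c1 b4 c4 ((S.F k).Z.trans ((S.F k).Z.symm b2) c2) ((B k).trans ((B k).symm b3) c3)
        obtain ⟨i, j, hij, h1⟩ := hC' ((K k + 1) * S.dl r k) (S.dl r k / (L k + 1)) (S.dl r k) hd (by positivity) (by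
          rw [div_le_iff₀ (by positivity)]
          have h5 : 0 ≤ K k * L k := mul_nonneg hK0 hL0
          nlinarith [mul_nonneg hK0 hd.le, mul_nonneg hL0 hd.le, mul_nonneg h5 hd.le]) (q k a0) (hD k a0)
          (fun i => y.v k (f i) 0) (fun i => (hval i).1.trans (by
            apply mul_le_mul_of_nonneg_right _ hd.le
            linarith)) (fun i => by
            rw [div_le_iff₀ (by positivity)]
            have h6 := (hval i).2
            have h7 : 0 ≤ |(q k a0).derivative.eval (y.v k (f i) 0)| := abs_nonneg _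
            nlinarith [mul_nonneg h7 hd.le, mul_le_mul_of_nonneg_right h6 hd.le])
        refine ⟨i, j, hij, h1.trans (le_of_eq ?_)⟩
        show C₀ * ((K k + 1) * S.dl r k / (S.dl r k / (L k + 1))) * S.dl r k =
          C₀ * ((K k + 1) * (L k + 1)) * S.dl r k
        have h8 : (K k + 1) * S.dl r k / (S.dl r k / (L k + 1)) = (K k + 1) * (L k + 1) := by
          have h9 : L k + 1 ≠ 0 := by positivity
          field_simp
        rw [h8]
    · exact ⟨fun _ => 0, fun a ha => absurd ⟨a, ha⟩ hex⟩
  set R : ∀ k, (S.F k).Ω → Fin n → ℝ := fun k ω => if h : ∃ R : Fin n → ℝ, ∀ a, g k ω a → ∃ i,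
    |y.v k a 0 - R i| ≤ T k * S.dl r k then h.choose else fun _ => 0 with hR
  set idx : ∀ k, (S.F k).Ω → Fin n := fun k ω => if h : ∃ i, |y.v k ω 0 - R k ω i| ≤ T k * S.dl r k then h.choose
    else ⟨0, by omega⟩ with hidx
  have h1 : PLe (fun k => fc (Setoid.ker (y.cellv r k))) (fun k => fc (B k ⊓ Setoid.ker (idx k))) := by
    refine PLe_cell_typ y r _ (fun k => 2 * T k) ?_ hG ?_
    · exact (S.Sub_const (show (0 : ℝ) ≤ 2 by norm_num)).mul ((S.Sub_const (by linarith)).mul
        ((hK.add (S.Sub_const zero_le_one)).mul (hL.add (S.Sub_const zero_le_one))))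
    · filter_upwards [key] with k hk ω ω' a1 a2 a3 a4 a5 a6 i
      have hi : i = 0 := Subsingleton.elim _ _
      obtain ⟨a7, a8⟩ : B k ω ω' ∧ idx k ω = idx k ω' := a6
      have e2 : g k ω = g k ω' := by
        funext a
        apply propext
        show (_ ∧ _ ∧ _ ∧ _) ↔ (_ ∧ _ ∧ _ ∧ _)
        constructor
        · rintro ⟨b1, b2, b3, b5⟩
          exact ⟨b1, (S.F k).Z.trans ((S.F k).Z.symm a5) b2, (B k).trans ((B k).symm a7) b3, b5⟩
        · rintro ⟨b1, b2, b3, b5⟩
          exact ⟨b1, (S.F k).Z.trans a5 b2, (B k).trans a7 b3, b5⟩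
      have e3 : R k ω = R k ω' := by
        show (if h : ∃ R : Fin n → ℝ, ∀ a, g k ω a → ∃ i, |y.v k a 0 - R i| ≤ T k * S.dl r k then h.choose
          else fun _ => 0) = if h : ∃ R : Fin n → ℝ, ∀ a, g k ω' a → ∃ i, |y.v k a 0 - R i| ≤ T k * S.dl r k then
            h.choose else fun _ => 0
        rw [e2]
      have q1 : ∀ ω, G k ω → (S.F k).μ ω ≠ 0 → |y.v k ω 0 - R k ω (idx k ω)| ≤ T k * S.dl r k := by
        intro ω hG1 hμ
        have h5 : ∃ R : Fin n → ℝ, ∀ a, g k ω a → ∃ i, |y.v k a 0 - R i| ≤ T k * S.dl r k := hk ω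
        have h6 : R k ω = h5.choose := dif_pos h5
        have h7 : ∃ i, |y.v k ω 0 - R k ω i| ≤ T k * S.dl r k := by
          rw [h6]
          exact h5.choose_spec ω ⟨hμ, (S.F k).Z.refl ω, (B k).refl ω, hG1⟩
        have h8 : idx k ω = h7.choose := dif_pos h7
        rw [h8]
        exact h7.choose_spec
      have q2 := q1 ω a3 a1
      have q3 := q1 ω' a4 a2
      rw [← a8, ← e3] at q3
      rw [hi]
      show |y.v k ω 0 - y.v k ω' 0| ≤ 2 * T k * S.dl r k
      rw [abs_le] at q2 q3 ⊢
      constructor <;> linarith [q2.1, q2.2, q3.1, q3.2]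
  have h2 : PLe (fun k => fc (B k ⊓ Setoid.ker (idx k))) (fun k => fc (B k)) := by
    have e1 : (fun k => fc (B k ⊓ Setoid.ker (idx k))) = fun k => fc (B k) ⊔ fc (Setoid.ker (idx k)) := rfl
    rw [e1]
    exact PLe.sup_le (PLe.refl _) (nul_fin' idx _)
  exact h1.trans h2

/-- THE CELLS OF A VECTOR from the cells of the coordinates, one after the other -/
theorem cells_chain {M : ℕ} (y : S.VV M) (r : ℝ) (B : ∀ k, Setoid (S.F k).Ω)
    (h : ∀ j : Fin M, PLe (S := S) (fun k => fc (Setoid.ker ((y.co j).cellv r k)))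
      (fun k => fc (B k ⊓ Setoid.ker (fun ω (i : Fin M) => if i.val < j.val then y.cellv r k ω i else 0)))) :
    PLe (S := S) (fun k => fc (Setoid.ker (y.cellv r k))) (fun k => fc (B k)) := by
  have key : ∀ m : ℕ, m ≤ M → PLe (S := S)
      (fun k => fc (Setoid.ker (fun (ω : (S.F k).Ω) (i : Fin M) => if i.val < m then y.cellv r k ω i else 0)))
      (fun k => fc (B k)) := by
    intro m
    induction m with
    | zero =>
      intro _
      refine PLe_of_le fun k => ?_
      apply fc_le
      intro ω ω' _ _ _ _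
      show (fun i : Fin M => if i.val < 0 then y.cellv r k ω i else 0) =
        fun i : Fin M => if i.val < 0 then y.cellv r k ω' i else 0
      funext i
      rw [if_neg (Nat.not_lt_zero _), if_neg (Nat.not_lt_zero _)]
    | succ m ih =>
      intro hm
      have h1 := ih (Nat.le_of_succ_le hm)
      have h2 := h ⟨m, hm⟩
      have e1 : (fun k => fc (B k ⊓ Setoid.ker (fun ω (i : Fin M) => if i.val < m then y.cellv r k ω i else 0)) :
          Part S) = fun k => fc (B k) ⊔
            fc (Setoid.ker (fun ω (i : Fin M) => if i.val < m then y.cellv r k ω i else 0)) := funext fun k => fc_inf _ _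
      have h3 : PLe (S := S) (fun k => fc (B k ⊓ Setoid.ker
          (fun ω (i : Fin M) => if i.val < m then y.cellv r k ω i else 0))) (fun k => fc (B k)) := by
        rw [e1]
        exact PLe.sup_le (PLe.refl _) h1
      have h4 := h2.trans h3
      refine PLe.trans (PLe_of_le fun k => ?_) (PLe.sup_le h1 h4)
      rw [← fc_inf]
      apply fc_le
      intro ω ω' _ _ _ c
      obtain ⟨c1, c2⟩ := c
      show (fun i : Fin M => if i.val < m + 1 then y.cellv r k ω i else 0) =
        fun i : Fin M => if i.val < m + 1 then y.cellv r k ω' i else 0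
      funext i
      by_cases hi : i.val < m
      · have c3 := congrFun c1 i
        rw [if_pos (by omega), if_pos (by omega)]
        have c4 : (if i.val < m then y.cellv r k ω i else 0) = if i.val < m then y.cellv r k ω' i else 0 := c3
        rwa [if_pos hi, if_pos hi] at c4
      · by_cases hi2 : i.val = m
        · rw [if_pos (by omega), if_pos (by omega)]
          have c3 : (y.co ⟨m, hm⟩).cellv r k ω 0 = (y.co ⟨m, hm⟩).cellv r k ω' 0 := congrFun c2 0
          have e2 : i = ⟨m, hm⟩ := Fin.ext hi2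
          rw [e2]
          exact c3
        · rw [if_neg (by omega), if_neg (by omega)]
  refine PLe.trans (PLe_of_le fun k => ?_) (key M le_rfl)
  apply fc_le
  intro ω ω' _ _ _ c
  show y.cellv r k ω = y.cellv r k ω'
  funext i
  have c3 : (if i.val < M then y.cellv r k ω i else 0) = if i.val < M then y.cellv r k ω' i else 0 := congrFun c i
  rwa [if_pos i.isLt, if_pos i.isLt] at c3

end

end Pool.Agent.Helper48.FLF
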