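import Pool.Agent.Helper48.FLF.Pt
import Pool.Agent.Helper48.FLF.Kn1
import Pool.Agent.Helper70.CPW.Dfc
import Pool.Agent.Helper18.TRF.Cel

/-! THE CELLS OF A FRAME are known to the label and the cells of triangular rows over the label. -/

set_option autoImplicit false

namespace Pool.Agent.Helper48.FLF

open Finset Filter Topology MvPolynomial Pool.Agent.Helper69.RK Pool.Agent.Helper31.EC Pool.Agent.Helper31.EC.Sp
open Pool.Agent.Helper40.EL Pool.Agent.Helper84.MT Pool.Agent.Helper89.LX Pool.Agent.Helper3.LF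
open Pool.Agent.Helper95.LF Pool.Agent.Helper7.GZ Pool.Agent.Helper26.BXD
open Pool.Agent.Helper36.AM (Frm inv_val Sub_L pct)
open Pool.Agent.Helper7.RD (RW PZ volCO upz)
open Pool.Agent.Helper70.CPW
open Pool.Agent.Helper18.TRF (dl_inv_mul)
open Pool.Agent.Helper29.MX

noncomputable section

variable {S : Sp} {M D : ℕ} {Q : S.VV M} {X W : Rsl S} {La : Fin M → ℝ} (f : Frm Q (Lab.ofZ X) La)

/-- the exact coordinates of the point -/
def xs (k : ℕ) (ω : (S.F k).Ω) (j : Fin M) : ℝ :=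
  (scl La S k j)⁻¹ * eval (Q.v k ω) (Pool.Agent.Helper36.AM.inv (fP f k ω) j)

theorem xs_chart (k : ℕ) (ω : (S.F k).Ω) (j : Fin M) : eval (xs f k ω) (chp (fP f k ω) (scl La S k) j) = Q.v k ω j :=
  chp_inv (fP_tri f k ω) (scl La S k) (scl_ne k) (Q.v k ω) j

/-- the exact coordinates are close to the coordinates of the frame -/
theorem xs_near {κ : ℕ} (hκ : ∀ k ω j, (f.P k ω j).totalDegree ≤ κ) (h0 : ∀ j, 0 ≤ La j) {u : ℝ}
    (hu : ∀ j, La j + u ≤ 1) : ∃ K : ℕ → ℝ, S.Sub K ∧ ∀ᶠ k in UF, ∀ ω : (S.F k).Ω, (S.F k).μ ω ≠ 0 → ∀ j,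
      |f.X.v k ω j - xs f k ω j| ≤ K k * S.dl u k := by
  obtain ⟨Kc, hKc, hc⟩ := f.bd
  obtain ⟨Kp, hKp, hp⟩ := f.pt
  obtain ⟨Kx, hKx', hx⟩ := f.X.bd
  have hKx : S.Sub Kx := (sp_Sub (Lab.ofZ X)).mp hKx'
  obtain ⟨L, hL⟩ : ∃ L : ℕ → ℝ, L = fun k => ((κ : ℝ) + 1) ^ M * Kc k * (κ * (Kx k + 1) ^ κ) := ⟨_, rfl⟩
  have hLS : S.Sub L := by rw [hL]; exact Sub_L hKc hKx M κ
  have hE : S.Sub (fun k => (1 + L k) ^ M * Kp k) :=
    (Sub_pow' ((S.Sub_const zero_le_one).add hLS) M).mul hKp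
  refine ⟨_, hE, ?_⟩
  filter_upwards [hc, hp, hx, fP_ev f, hKc.1, hKp.1, hKx.1, hE.eventually_le one_pos, hE.1] with k c1 c2 c3 c4 p1 p2 p3 p4 p5
  intro ω hω j
  have hω' : ((Lab.ofZ X).sp.F k).μ ω ≠ 0 := hω
  have c4' : fP f k ω = f.P k ω := c4 ω
  have hδ := S.dl_pos 1 k
  have hd1 : S.dl 1 k * 2 ^ (1 * (S.F k).n) = 1 := by
    unfold Sp.dl
    rw [← Real.rpow_add (by norm_num)]
    norm_num
  have hs : (1 + L k) ^ M * (Kp k * S.dl 1 k) ≤ 1 := by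
    have h2 := mul_le_mul_of_nonneg_right p4 hδ.le
    rw [mul_comm (2 ^ (1 * (S.F k).n)) (S.dl 1 k), hd1] at h2
    linarith
  have h2 := inv_val (fP_tri f k ω) (fun j => fP_deg f hκ k ω j) p1 (fun j a => by rw [c4']; exact c1 ω hω' j a) p3
    (show 0 ≤ Kp k * S.dl 1 k by positivity) (L := L k) (by rw [hL]) hs
    (fun a => S.dl (La a) k * f.X.v k ω a) (Q.v k ω) (fun i => by
      rw [abs_mul, abs_of_pos (S.dl_pos _ _)]
      have h3 : S.dl (La i) k ≤ 1 := (S.dl_anti (h0 i) k).trans (le_of_eq (S.dl_zero k))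
      have h4 : |f.X.v k ω i| ≤ Kx k := c3 ω hω' i
      calc S.dl (La i) k * |f.X.v k ω i| ≤ 1 * |f.X.v k ω i| := mul_le_mul_of_nonneg_right h3 (abs_nonneg _)
        _ ≤ Kx k := by rw [one_mul]; exact h4)
    (fun i => by
      rw [c4']
      exact c2 ω hω' i) j
  have h3 : f.X.v k ω j - xs f k ω j = -((S.dl (La j) k)⁻¹ *
      (eval (Q.v k ω) (Pool.Agent.Helper36.AM.inv (fP f k ω) j) - S.dl (La j) k * f.X.v k ω j)) := by
    have e1 : xs f k ω j = (S.dl (La j) k)⁻¹ * eval (Q.v k ω) (Pool.Agent.Helper36.AM.inv (fP f k ω) j) := rfl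
    have e2 : f.X.v k ω j = (S.dl (La j) k)⁻¹ * (S.dl (La j) k * f.X.v k ω j) := by
      rw [← mul_assoc, inv_mul_cancel₀ (S.dl_pos _ _).ne', one_mul]
    rw [e1, mul_sub, ← e2]
    ring
  rw [h3, abs_neg, abs_mul, abs_of_pos (inv_pos.mpr (S.dl_pos _ _))]
  refine (mul_le_mul_of_nonneg_left h2 (inv_pos.mpr (S.dl_pos _ _)).le).trans ?_
  have h4 : (S.dl (La j) k)⁻¹ * ((1 + L k) ^ M * (Kp k * S.dl 1 k)) =
      (1 + L k) ^ M * Kp k * ((S.dl (La j) k)⁻¹ * S.dl 1 k) := by ring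
  rw [h4, dl_inv_mul]
  apply mul_le_mul_of_nonneg_left _ p5
  apply S.dl_anti
  linarith [hu j]

/-- the derivative of a row in the coordinates of the frame at the exact point -/
theorem qz_der {Λ u : ℝ} (R : Rows Q (Lab.ofZ W) M D Λ u) {k : ℕ} {ω : (S.F k).Ω}
    (hp : pct (Lab.ofZ W) R.p k ω = R.p k ω) {j : Fin M} (tri : ∀ i ∈ (R.p k ω j).vars, i ≤ j) :
    eval (xs f k ω) (pderiv j (qz f R k ω j)) = eval (Q.v k ω) (pderiv j (R.p k ω j)) * S.dl (La j) k := by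
  have h1 : qz f R k ω j = bind₁ (chp (fP f k ω) (scl La S k)) (R.p k ω j) := by
    unfold qz
    rw [hp]
  rw [h1, row_pderiv (fP_tri f k ω) (scl La S k) tri]
  have h2 : (fun i => eval (xs f k ω) (chp (fP f k ω) (scl La S k) i)) = Q.v k ω := funext fun i => xs_chart f k ω i
  rw [h2]
  rfl

theorem qz_vars {Λ u : ℝ} (R : Rows Q (Lab.ofZ W) M D Λ u) {k : ℕ} {ω : (S.F k).Ω}
    (hp : pct (Lab.ofZ W) R.p k ω = R.p k ω) {j : Fin M} (tri : ∀ i ∈ (R.p k ω j).vars, i ≤ j) :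
    ∀ i ∈ (qz f R k ω j).vars, i ≤ j := by
  have h1 : qz f R k ω j = bind₁ (chp (fP f k ω) (scl La S k)) (R.p k ω j) := by
    unfold qz
    rw [hp]
  rw [h1]
  exact row_vars (fP_tri f k ω) (scl La S k) tri

end

end Pool.Agent.Helper48.FLF
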