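import Pool.Agent.Helper48.FLF.Bck
import Pool.Agent.Helper29.MX.St2

/-! FLF: the cells of the point of a zoom in flag rows over a literal label and the cells of the box of a frame over a
coarser literal label know each other over the label. -/

set_option autoImplicit false

namespace Pool.Agent.Helper48.FLF

open Finset Filter Topology MvPolynomial Pool.Agent.Helper69.RK Pool.Agent.Helper31.EC Pool.Agent.Helper31.EC.Sp
open Pool.Agent.Helper40.EL Pool.Agent.Helper84.MT Pool.Agent.Helper89.LX Pool.Agent.Helper3.LF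
open Pool.Agent.Helper95.LF Pool.Agent.Helper7.GZ Pool.Agent.Helper26.BXD
open Pool.Agent.Helper36.AM (Frm inv_val Sub_L pct)
open Pool.Agent.Helper7.RD (RW PZ volCO upz)
open Pool.Agent.Helper70.CPW
open Pool.Agent.Helper18.TRF (dl_inv_mul)
open Pool.Agent.Helper29.MX
open Pool.Agent.Helper75.CC (PLe_cell0)
open Pool.Agent.Helper81.MI (eval_bind)

noncomputable section

variable {S : Sp} {M D : ℕ} {Q : S.VV M} {X W : Rsl S} {La : Fin M → ℝ} (f : Frm Q (Lab.ofZ X) La)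

theorem Sub_lpc {K R : ℕ → ℝ} (hK : S.Sub K) (hR : S.Sub R) (M p : ℕ) : S.Sub (fun k => lpc M p (K k) (R k)) := by
  unfold lpc
  exact (S.Sub_const (Nat.cast_nonneg _)).mul ((S.Sub_const (by positivity)).mul
    (hK.mul ((S.Sub_const (Nat.cast_nonneg _)).mul (Sub_pow' hR p))))

/-- subexponential functions times a positive power of the scale -/
theorem Sub_small {K : ℕ → ℝ} (hK : S.Sub K) {r : ℝ} (hr : 0 < r) : ∀ᶠ k in UF, K k * S.dl r k ≤ 1 := by
  filter_upwards [hK.eventually_le hr] with k hk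
  have hδ := S.dl_pos r k
  have hd1 : 2 ^ (r * (S.F k).n) * S.dl r k = 1 := by
    unfold Sp.dl
    rw [← Real.rpow_add (by norm_num)]
    norm_num
  have h2 := mul_le_mul_of_nonneg_right hk hδ.le
  rw [hd1] at h2
  linarith

/-- the value of the rows at the point of the frame -/
theorem row_near {c u : ℝ} {h0 : 0 ≤ c} {hu : 0 < u} {h1 : c + u ≤ 1} (z : PZ (zuz W c u h0 hu h1) Q M) {k : ℕ}
    {ω : (S.F k).Ω} {Kp K1 K2 : ℝ} (hp : pct (Lab.ofZ W) z.R.p k ω = z.R.p k ω)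
    (g1 : ∀ j, |Q.v k ω j - eval (f.X.v k ω) (chp (fP f k ω) (scl La S k) j)| ≤ Kp * S.dl 1 k)
    (g2 : ∀ j, |z.X.v k ω j - eval (Q.v k ω) (z.R.p k ω j)| ≤ K1 * S.dl u k)
    (g3 : ∀ y : Fin M → ℝ, (∀ i, |y i - Q.v k ω i| ≤ Kp * S.dl 1 k) → ∀ j,
      |eval y (z.R.p k ω j) - eval (Q.v k ω) (z.R.p k ω j)| ≤ K2 * S.dl u k) (i : Fin M) :
    |z.X.v k ω i - eval (f.X.v k ω) (qz f z.R k ω i)| ≤ (K1 + K2) * S.dl u k := by
  have h3 := g3 (fun i => eval (f.X.v k ω) (chp (fP f k ω) (scl La S k) i)) (fun i => by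
    rw [abs_sub_comm]
    exact g1 i) i
  have h4 := g2 i
  have h5 : eval (f.X.v k ω) (qz f z.R k ω i) = eval (fun i => eval (f.X.v k ω) (chp (fP f k ω) (scl La S k) i))
      (z.R.p k ω i) := by
    unfold qz
    rw [eval_bind, hp]
  rw [h5]
  rw [abs_le] at h3 h4 ⊢
  constructor <;> linarith [h3.1, h3.2, h4.1, h4.2]

/-- **THE CELLS OF THE FRAME** are known to the label and the cells of the triangular rows -/
theorem frm_known {c u : ℝ} {h0 : 0 ≤ c} {hu : 0 < u} {h1 : c + u ≤ 1} (z : PZ (zuz W c u h0 hu h1) Q M)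
    {κ : ℕ} (hκ : ∀ k ω j, (f.P k ω j).totalDegree ≤ κ) (hLa : ∀ j, 0 ≤ La j) (hLu : ∀ j, La j + u ≤ 1)
    (hT : ∃ K : ℕ → ℝ, S.Sub K ∧ Typ (S := S) (fun k ω => ∀ j a, |coeff a (qz f z.R k ω j)| ≤ K k))
    (tri : ∀ k (ω : (S.F k).Ω) (j : Fin M), ∀ i ∈ (z.R.p k ω j).vars, i ≤ j)
    (ex : ∃ L : ℕ → ℝ, S.Sub L ∧ Typ (S := S) (fun k ω => ∀ j : Fin M,
      1 ≤ L k * (|eval (Q.v k ω) (pderiv j (z.R.p k ω j))| * S.dl (La j) k)))
    {b : ℝ} (hb0 : 0 ≤ b) (hb1 : b ≤ 1) :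
    PLe (S := (Lab.ofZ W).ovr u hu) (fun k => fc (Setoid.ker (f.X.cellv (u * b) k)))
      (fun k => fc (X k ⊓ Setoid.ker (z.X.cellv b k) : Setoid (S.F k).Ω)) := by
  obtain ⟨Ks, hKs, hxs⟩ := xs_near f hκ hLa hLu
  obtain ⟨Kp, hKp, hp⟩ := chart_pt f
  obtain ⟨Kc, hKc, hTc⟩ := hT
  obtain ⟨K1, hK1, hT1⟩ := z.hX
  obtain ⟨K2, hK2, hT2⟩ := z.R.lp Kp hKp
  obtain ⟨Kx, hKx', hx⟩ := f.X.bd
  obtain ⟨L, hL, hTL⟩ := ex
  have hKx : S.Sub Kx := (sp_Sub (Lab.ofZ X)).mp hKx'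
  have hd : ∀ k, ((Lab.ofZ W).ovr u hu).dl b k = S.dl (u * b) k := fun k => (zuz W c u h0 hu h1).sp_dl' b k
  have hdX : ∀ k, (Lab.ofZ X).sp.dl (u * b) k = S.dl (u * b) k := fun k => sp_dl _ _ _
  obtain ⟨y, hy⟩ : ∃ y : ((Lab.ofZ W).ovr u hu).VV M, y.v = f.X.v :=
    ⟨⟨f.X.v, ⟨Kx, (zuz W c u h0 hu h1).Sub_sp.1 hKx, hx⟩⟩, rfl⟩
  have hcell : ∀ k, y.cellv b k = f.X.cellv (u * b) k := by
    intro k
    funext ω i
    have e2 : y.v k ω i = f.X.v k ω i := congrFun (congrFun (congrFun hy k) ω) i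
    show ⌊y.v k ω i / ((Lab.ofZ W).ovr u hu).dl b k⌋ = ⌊f.X.v k ω i / (Lab.ofZ X).sp.dl (u * b) k⌋
    rw [hd, hdX, e2]
  have e0 : (fun k => fc (Setoid.ker (f.X.cellv (u * b) k)) : Part ((Lab.ofZ W).ovr u hu)) =
      fun k => fc (Setoid.ker (y.cellv b k)) := funext fun k => by rw [hcell]
  have goal2 : PLe (S := (Lab.ofZ W).ovr u hu) (fun k => fc (Setoid.ker (y.cellv b k)))
      (fun k => fc (X k ⊓ Setoid.ker (z.X.cellv b k) : Setoid (S.F k).Ω)) := by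
    refine cells_chain y b (fun k => (X k ⊓ Setoid.ker (z.X.cellv b k) : Setoid (S.F k).Ω)) fun j => ?_
    rcases hb0.eq_or_lt with hb | hb
    · rw [← hb]
      exact PLe_cell0 (y.co j) _
    · have hub : 0 < u * b := mul_pos hu hb
      obtain ⟨p, hpD⟩ : ∃ p : ℕ, p = z.D * (κ + 1) := ⟨_, rfl⟩
      have hG : Typ (S := S) (fun k (ω : (S.F k).Ω) => (∀ j a, |coeff a (qz f z.R k ω j)| ≤ Kc k) ∧
          (∀ j, |z.X.v k ω j - eval (Q.v k ω) (z.R.p k ω j)| ≤ K1 k * S.dl u k) ∧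
          (∀ y : Fin M → ℝ, (∀ i, |y i - Q.v k ω i| ≤ Kp k * S.dl 1 k) → ∀ j,
            |eval y (z.R.p k ω j) - eval (Q.v k ω) (z.R.p k ω j)| ≤ K2 k * S.dl u k) ∧
          ∀ j : Fin M, 1 ≤ L k * (|eval (Q.v k ω) (pderiv j (z.R.p k ω j))| * S.dl (La j) k)) :=
        Typ.and (S := S) hTc (Typ.and (S := S) hT1 (Typ.and (S := S) hT2 hTL))
      have hF : S.Sub (fun k => 2 * (L k * (lpc M p (p * Kc k) (Kx k + 2) * (1 + Ks k)))) :=
        (S.Sub_const (by norm_num)).mul (hL.mul ((Sub_lpc ((S.Sub_const (Nat.cast_nonneg _)).mul hKc)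
          (hKx.add (S.Sub_const (by norm_num))) M p).mul ((S.Sub_const zero_le_one).add hKs)))
      refine kn_branch (S := (Lab.ofZ W).ovr u hu) (y.co j) p _
        (fun k (ω : (S.F k).Ω) => rwp (qz f z.R k ω j) j (f.X.v k ω) (z.X.v k ω j))
        (fun k ω => rwp_deg (by rw [hpD]; exact qz_deg f z.R hκ k ω j) _ _ _) hG
        (K := fun k => lpc M p (Kc k) (Kx k + 2) + (K1 k + K2 k) + 1) (L := fun k => 2 * L k)
        ((zuz W c u h0 hu h1).Sub_sp.1 (((Sub_lpc hKc (hKx.add (S.Sub_const (by norm_num))) M p).add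
          (hK1.add hK2)).add (S.Sub_const zero_le_one)))
        ((zuz W c u h0 hu h1).Sub_sp.1 ((S.Sub_const (by norm_num)).mul hL)) ?_
      filter_upwards [hp, hx, pct_ev z.R, hxs, Sub_small hF hub, Sub_small hKs hub, hK1.1, hK2.1, hKc.1, hKx.1, hKs.1,
        hL.1] with k g1 g2 g3 g4 g5 g6 c1 c2 c3 c4 c5 c6
      intro (ω : (S.F k).Ω) (ω' : (S.F k).Ω) a a' hω hω' hZ hB
      obtain ⟨hW, hZ'⟩ := hZ
      obtain ⟨⟨hX, hc⟩, hfst⟩ := hB
      have e1 : qz f z.R k ω = qz f z.R k ω' := qz_fn f z.R k ω ω' a a' hZ' hX hW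
      have hδ := S.dl_pos (u * b) k
      have hδ1 : S.dl (u * b) k ≤ 1 := (S.dl_anti hub.le k).trans_eq (S.dl_zero k)
      have hδu : S.dl u k ≤ S.dl (u * b) k := S.dl_anti (by nlinarith) k
      have hT1' : (qz f z.R k ω j).totalDegree ≤ p := by rw [hpD]; exact qz_deg f z.R hκ k ω j
      have hv1 : ∀ i ∈ (qz f z.R k ω j).vars, i ≤ j := qz_vars f z.R (g3 ω) (tri k ω j)
      have hfr : ∀ i, i < j → |f.X.v k ω' i - f.X.v k ω i| ≤ S.dl (u * b) k := by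
        intro i hi
        have h2 : (if i.val < j.val then y.cellv b k ω i else 0) = if i.val < j.val then y.cellv b k ω' i else 0 :=
          congrFun hfst i
        have hi' : i.val < j.val := hi
        rw [if_pos hi', if_pos hi', hcell] at h2
        have h3 : |f.X.v k ω' i - f.X.v k ω i| ≤ (Lab.ofZ X).sp.dl (u * b) k :=
          abs_sub_le_of_floor_eq ((Lab.ofZ X).sp.dl_pos (u * b) k) h2.symm
        rwa [hdX] at h3
      have hza : |z.X.v k ω j - z.X.v k ω' j| ≤ S.dl (u * b) k := by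
        have h3 : |z.X.v k ω j - z.X.v k ω' j| ≤ ((Lab.ofZ W).ovr u hu).dl b k :=
          abs_sub_le_of_floor_eq (((Lab.ofZ W).ovr u hu).dl_pos b k) (congrFun hc j)
        rwa [hd] at h3
      have hval : |z.X.v k ω' j - eval (f.X.v k ω') (qz f z.R k ω j)| ≤ (K1 k + K2 k) * S.dl (u * b) k := by
        rw [e1]
        exact (row_near f z (g3 ω') (g1 ω' a') hω'.2.1 hω'.2.2.1 j).trans
          (mul_le_mul_of_nonneg_left hδu (by linarith))
      have hder : 1 ≤ L k * |eval (xs f k ω') (pderiv j (qz f z.R k ω j))| := by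
        rw [e1, qz_der f z.R (g3 ω') (tri k ω' j), abs_mul, abs_of_pos (S.dl_pos _ _)]
        exact hω'.2.2.2 j
      have key := one_pt (M := M) (T := qz f z.R k ω j) hT1' (j := j) hv1 (K := Kc k) (B := Kx k) (κ := Ks k)
        (δ := S.dl (u * b) k) (A := K1 k + K2 k) (L := L k) c3 (hω.1 j) c4 hδ hδ1 c5 g6 c6
        (x := f.X.v k ω) (x' := f.X.v k ω') (s := xs f k ω') (g2 ω a) (g2 ω' a') hfr
        (fun i => (g4 ω' a' i).trans (mul_le_mul_of_nonneg_left hδu c5)) hza hval hder (by linarith)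
      show |(rwp (qz f z.R k ω j) j (f.X.v k ω) (z.X.v k ω j)).eval (y.v k ω' j)| ≤
        (lpc M p (Kc k) (Kx k + 2) + (K1 k + K2 k) + 1) * ((Lab.ofZ W).ovr u hu).dl b k ∧
          1 ≤ 2 * L k * |(rwp (qz f z.R k ω j) j (f.X.v k ω) (z.X.v k ω j)).derivative.eval (y.v k ω' j)|
      rw [hd, hy]
      exact key
  rw [e0]
  exact goal2

end

end Pool.Agent.Helper48.FLF
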