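import Pool.Agent.Helper48.FLF.Tri

/-! ONE POINT: the polynomial in one variable of a triangular row at a good point of the class. -/

set_option autoImplicit false

namespace Pool.Agent.Helper48.FLF

open Finset Filter Topology MvPolynomial Pool.Agent.Helper69.RK Pool.Agent.Helper31.EC Pool.Agent.Helper31.EC.Sp
open Pool.Agent.Helper40.EL Pool.Agent.Helper84.MT Pool.Agent.Helper89.LX Pool.Agent.Helper3.LF
open Pool.Agent.Helper95.LF
open Pool.Agent.Helper70.CPW (lip_cf)
open Pool.Agent.Helper40.PB (lnp_upd dir_single)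
open Pool.Agent.Helper59.OKD (coeff_pderiv_le pderiv_vars)

noncomputable section

variable {M : ℕ}

/-- the Lipschitz constant -/
def lpc (M p : ℕ) (K R : ℝ) : ℝ := M * (((p : ℝ) + 1) ^ M * (K * (p * R ^ p)))

theorem lpc_nonneg {M p : ℕ} {K R : ℝ} (hK : 0 ≤ K) (hR : 0 ≤ R) : 0 ≤ lpc M p K R := by
  unfold lpc
  positivity

/-- the row as a polynomial in the variable `j` -/
def rwp (T : MvPolynomial (Fin M) ℝ) (j : Fin M) (x : Fin M → ℝ) (a : ℝ) : Polynomial ℝ :=
  lnp (Function.update x j 0) (Pi.single j 1) T - Polynomial.C a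

theorem rwp_eval (T : MvPolynomial (Fin M) ℝ) (j : Fin M) (x : Fin M → ℝ) (a t : ℝ) :
    (rwp T j x a).eval t = eval (Function.update x j t) T - a := by
  unfold rwp
  rw [Polynomial.eval_sub, lnp_upd, Polynomial.eval_C]

theorem rwp_der (T : MvPolynomial (Fin M) ℝ) (j : Fin M) (x : Fin M → ℝ) (a t : ℝ) :
    (rwp T j x a).derivative.eval t = eval (Function.update x j t) (pderiv j T) := by
  unfold rwp
  rw [Polynomial.derivative_sub, Polynomial.derivative_C, sub_zero, lnp_deriv, dir_single, lnp_upd]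

theorem rwp_deg {T : MvPolynomial (Fin M) ℝ} {p : ℕ} (hT : T.totalDegree ≤ p) (j : Fin M) (x : Fin M → ℝ) (a : ℝ) :
    (rwp T j x a).natDegree ≤ p := by
  unfold rwp
  refine (Polynomial.natDegree_sub_le _ _).trans (max_le ((lnp_deg _ _ _).trans hT) ?_)
  rw [Polynomial.natDegree_C]
  exact Nat.zero_le _

/-- **ONE POINT** -/
theorem one_pt {p : ℕ} {T : MvPolynomial (Fin M) ℝ} (hT : T.totalDegree ≤ p) {j : Fin M} (hv : ∀ i ∈ T.vars, i ≤ j)
    {K B κ δ A L : ℝ} (hK : 0 ≤ K) (hc : ∀ a, |coeff a T| ≤ K) (hB : 0 ≤ B) (hδ : 0 < δ) (hδ1 : δ ≤ 1) (hκ : 0 ≤ κ)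
    (hκδ : κ * δ ≤ 1) (hL : 0 ≤ L) {x x' s : Fin M → ℝ} (hx : ∀ i, |x i| ≤ B) (hx' : ∀ i, |x' i| ≤ B)
    (h : ∀ i, i < j → |x' i - x i| ≤ δ) (hs : ∀ i, |x' i - s i| ≤ κ * δ) {a a' : ℝ} (ha : |a - a'| ≤ δ)
    (hv' : |a' - eval x' T| ≤ A * δ) (hd : 1 ≤ L * |eval s (pderiv j T)|)
    (hsm : L * (lpc M p (p * K) (B + 2) * (1 + κ)) * δ ≤ 1 / 2) :
    |(rwp T j x a).eval (x' j)| ≤ (lpc M p K (B + 2) + A + 1) * δ ∧
      1 ≤ 2 * L * |(rwp T j x a).derivative.eval (x' j)| := by
  have hR : 1 ≤ B + 2 := by linarith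
  have hpK : 0 ≤ (p : ℝ) * K := mul_nonneg (Nat.cast_nonneg _) hK
  constructor
  · rw [rwp_eval]
    have h1 := upd_close hT hv hK hc hR hδ.le x x' (fun i => by linarith [hx i]) (fun i => by linarith [hx' i]) h
    have h2 : |eval (Function.update x j (x' j)) T - eval x' T| ≤ lpc M p K (B + 2) * δ := h1
    rw [abs_le] at ha hv' h2 ⊢
    constructor <;> linarith [ha.1, ha.2, hv'.1, hv'.2, h2.1, h2.2]
  · rw [rwp_der]
    have hT' : (pderiv j T).totalDegree ≤ p := pderiv_tdeg T hT j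
    have hc' : ∀ a, |coeff a (pderiv j T)| ≤ p * K := fun a => coeff_pderiv_le T hT hc j a
    have h1 := upd_close hT' (fun i hi => hv i (pderiv_vars T j hi)) hpK hc' hR hδ.le x x'
      (fun i => by linarith [hx i]) (fun i => by linarith [hx' i]) h
    have h2 : |eval (Function.update x j (x' j)) (pderiv j T) - eval x' (pderiv j T)| ≤
      lpc M p (p * K) (B + 2) * δ := h1
    have h3 := lip_cf (pderiv j T) hT' hR hpK (mul_nonneg hκ hδ.le) hc' x' s (fun i => by linarith [hx' i]) (fun i => by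
      rw [abs_sub_comm]
      exact hs i)
    have h4 : |eval s (pderiv j T) - eval x' (pderiv j T)| ≤ lpc M p (p * K) (B + 2) * (κ * δ) := h3
    have h5 : |eval s (pderiv j T)| ≤ |eval (Function.update x j (x' j)) (pderiv j T)| +
        lpc M p (p * K) (B + 2) * (1 + κ) * δ := by
      have h6 : eval s (pderiv j T) = eval (Function.update x j (x' j)) (pderiv j T) -
        (eval (Function.update x j (x' j)) (pderiv j T) - eval x' (pderiv j T)) +
          (eval s (pderiv j T) - eval x' (pderiv j T)) := by ring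
      rw [h6]
      refine (abs_add_le _ _).trans ?_
      have h7 := abs_sub (eval (Function.update x j (x' j)) (pderiv j T))
        (eval (Function.update x j (x' j)) (pderiv j T) - eval x' (pderiv j T))
      linarith
    have h8 := mul_le_mul_of_nonneg_left h5 hL
    linarith

end

end Pool.Agent.Helper48.FLF
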