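import Pool.Agent.Helper48.FLF.Flf
import Pool.Agent.Helper18.TRF.Ful

/-! FLF, final forms: zooms in flag rows of a system over a literal K-label, numbers exact. -/

set_option autoImplicit false

namespace Pool.Agent.Helper48.FLF

open Finset Filter Topology MvPolynomial Pool.Agent.Helper69.RK Pool.Agent.Helper31.EC Pool.Agent.Helper31.EC.Sp
open Pool.Agent.Helper40.EL Pool.Agent.Helper84.MT Pool.Agent.Helper89.LX Pool.Agent.Helper3.LF
open Pool.Agent.Helper95.LF Pool.Agent.Helper7.GZ Pool.Agent.Helper26.BXD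
open Pool.Agent.Helper36.AM (Frm pct)
open Pool.Agent.Helper7.RD (RW PZ volCO upz fdW)
open Pool.Agent.Helper70.CPW
open Pool.Agent.Helper18.TRF (h_ovr)
open Pool.Agent.Helper87.NSL (cndR)
open Pool.Agent.Helper29.MX

noncomputable section

variable {S : Sp} {M : ℕ} {E : ℕ → ℕ} {ι : Type} {s : MSys S M E ι} {R X W : Rsl S}

/-- lower bounds with `o(n)` errors, all indices -/
theorem ex_all {S : Sp} {N : ℕ} (g : ∀ k, (S.F k).Ω → Fin N → ℝ) (La : Fin N → ℝ)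
    (h : ∀ e : ℝ, 0 < e → Typ (S := S) fun k ω => ∀ j, 2 ^ ((La j - e) * (S.F k).n) ≤ g k ω j) :
    ∃ L : ℕ → ℝ, S.Sub L ∧ Typ (S := S) fun k ω => ∀ j, 1 ≤ L k * (g k ω j * S.dl (La j) k) := by
  have h1 : ∀ j : Fin N, ∃ K : ℕ → ℝ, S.Sub K ∧ (∀ k, 1 ≤ K k) ∧
      Typ (S := S) fun k ω => 2 ^ (La j * (S.F k).n) ≤ K k * g k ω j := fun j =>
    typ_sub_ge (fun k ω => g k ω j) (La j) fun e he => (h e he).mono (Eventually.of_forall fun k ω _ hh => hh j)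
  choose K hK hK1 hT using h1
  refine ⟨fun k => ∑ j, K j k, Pool.Agent.Helper18.TRF.Sub_sum K hK, (Typ_all (S := S) _ hT).mono
    (Eventually.of_forall fun k ω _ hh j => ?_)⟩
  have h2 : 2 ^ (La j * (S.F k).n) ≤ K j k * g k ω j := hh j
  have hd : (2 : ℝ) ^ (La j * (S.F k).n) * S.dl (La j) k = 1 := by
    unfold Sp.dl
    rw [← Real.rpow_add (by norm_num)]
    norm_num
  have hδ := S.dl_pos (La j) k
  have h3 := mul_le_mul_of_nonneg_right h2 hδ.le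
  rw [hd] at h3
  have hpos : 0 < (2 : ℝ) ^ (La j * (S.F k).n) := by positivity
  have hg : 0 ≤ g k ω j := by
    by_contra hc
    push Not at hc
    have := mul_neg_of_pos_of_neg (lt_of_lt_of_le one_pos (hK1 j k)) hc
    linarith
  have h4 : K j k ≤ ∑ i, K i k :=
    Finset.single_le_sum (f := fun i => K i k) (fun i _ => zero_le_one.trans (hK1 i k)) (Finset.mem_univ j)
  calc (1 : ℝ) ≤ K j k * g k ω j * S.dl (La j) k := h3
    _ = K j k * (g k ω j * S.dl (La j) k) := by ring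
    _ ≤ (∑ i, K i k) * (g k ω j * S.dl (La j) k) := mul_le_mul_of_nonneg_right h4 (mul_nonneg hg hδ.le)

theorem exists_g (w : Fin M → ℝ) : ∃ g : ℕ, ∀ (_ : ∀ j, 1 ≤ w j) (j : Fin M), w j ≤ g :=
  ⟨⌈∑ j, w j⌉₊, fun hw j => (Finset.single_le_sum (f := w) (fun i _ => zero_le_one.trans (hw i))
    (Finset.mem_univ j)).trans (Nat.le_ceil _)⟩

/-- **FLF, ROWS FROM THE FRAME** (helper70's `row_known`) -/
theorem zf_ple [Finite ι] {c u : ℝ} {h0 : 0 ≤ c} {hu : 0 < u} {h1 : c + u ≤ 1}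
    (z : PZ (zuz W c u h0 hu h1) s.Q M) (hWK : KLb s R c (Lab.ofZ W)) (hXK : KLb s R c (Lab.ofZ X))
    {w : Fin M → ℝ} (f : Frm s.Q (Lab.ofZ X) fun j => w j * c) (hw : ∀ j, 1 ≤ w j)
    (hwe : ∀ j, w j * c + u ≤ 1) (hn : M - (∑ j, w j) * c ≤ volKO s R c) {b : ℝ} (hb0 : 0 ≤ b) (hb1 : b ≤ 1) :
    PLe (S := (Lab.ofZ W).ovr u hu) (fun k => fc (Setoid.ker (z.X.cellv b k)))
      (fun k => fc (X k ⊓ Setoid.ker (f.X.cellv (u * b) k) : Setoid (S.F k).Ω)) := by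
  obtain ⟨g, hg⟩ := exists_g w
  exact row_known z hWK hXK f hw (hg hw) hwe hn hb0 hb1

/-- **FLF, THE FRAME FROM THE ROWS** -/
theorem fz_ple [Finite ι] {c u : ℝ} {h0 : 0 ≤ c} {hu : 0 < u} {h1 : c + u ≤ 1}
    (z : PZ (zuz W c u h0 hu h1) s.Q M) (hWK : KLb s R c (Lab.ofZ W)) (hXK : KLb s R c (Lab.ofZ X))
    {w : Fin M → ℝ} (f : Frm s.Q (Lab.ofZ X) fun j => w j * c) (hw : ∀ j, 1 ≤ w j)
    (hwe : ∀ j, w j * c + u ≤ 1) (hn : M - (∑ j, w j) * c ≤ volKO s R c)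
    (tri : ∀ k (ω : (S.F k).Ω) (j : Fin M), ∀ i ∈ (z.R.p k ω j).vars, i ≤ j)
    (ex : ∀ e : ℝ, 0 < e → Typ (S := S) (fun k ω => ∀ j : Fin M,
      2 ^ ((w j * c - e) * (S.F k).n) ≤ |eval (s.Q.v k ω) (pderiv j (z.R.p k ω j))|))
    {b : ℝ} (hb0 : 0 ≤ b) (hb1 : b ≤ 1) :
    PLe (S := (Lab.ofZ W).ovr u hu) (fun k => fc (Setoid.ker (f.X.cellv (u * b) k)))
      (fun k => fc (X k ⊓ Setoid.ker (z.X.cellv b k) : Setoid (S.F k).Ω)) := by
  obtain ⟨g, hg⟩ := exists_g w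
  have hκ := Pool.Agent.Helper7.RD.frm_degW f h0 hw (hg hw)
  have hN := ng_box (s := s) (R := R) (fdW f h0 hu h1 hwe hw (hg hw)) hXK (by
    rw [← Finset.sum_mul]
    exact hn)
  refine frm_known f z hκ (fun j => mul_nonneg (zero_le_one.trans (hw j)) h0) hwe ?_ tri ?_ hb0 hb1
  · exact rows_tameZ f z.R hκ hu.le (A := cndR s R c) (fun i => ⟨i, PLe.refl _⟩) hWK.1
      (kz_ovl (l := Lab.ofZ X) (e := u) (he := hu) hWK.2) hN
  · exact ex_all (fun k ω j => |eval (s.Q.v k ω) (pderiv j (z.R.p k ω j))|) (fun j => w j * c) ex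

/-- THE ENTROPY OF THE BOX of the coarser label from the digits of the rows -/
theorem frm_dfc [Finite ι] {c u : ℝ} {h0 : 0 ≤ c} {hu : 0 < u} {h1 : c + u ≤ 1}
    (z : PZ (zuz W c u h0 hu h1) s.Q M) (hWK : KLb s R c (Lab.ofZ W)) (hXK : KLb s R c (Lab.ofZ X))
    {w : Fin M → ℝ} (f : Frm s.Q (Lab.ofZ X) fun j => w j * c) (hw : ∀ j, 1 ≤ w j)
    (hwe : ∀ j, w j * c + u ≤ 1) (hn : M - (∑ j, w j) * c ≤ volKO s R c)
    (tri : ∀ k (ω : (S.F k).Ω) (j : Fin M), ∀ i ∈ (z.R.p k ω j).vars, i ≤ j)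
    (ex : ∀ e : ℝ, 0 < e → Typ (S := S) (fun k ω => ∀ j : Fin M,
      2 ^ ((w j * c - e) * (S.F k).n) ≤ |eval (s.Q.v k ω) (pderiv j (z.R.p k ω j))|))
    (hWX : Nul S fun k => h (fc (W k)) (fc (X k))) (hXW : Nul S fun k => h (fc (X k)) (fc (W k)))
    {b d : ℝ} (hb0 : 0 ≤ b) (hb1 : b ≤ 1) (hd : H (z.X.dg b) ≤ d) :
    ul (fun k => h (fc (Setoid.ker (f.X.cellv (u * b) k)) : FL (Lab.ofZ X k).T) (Lab.ofZ X k).v / (S.F k).n) ≤
      u * d := by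
  have hk := fz_ple z hWK hXK f hw hwe hn tri ex hb0 hb1
  have e1 := Pool.Agent.Helper8.CPY.H_dg_eq (S := (Lab.ofZ W).ovr u hu) z.X b
  have hU : UB (fun k => h (fc (Setoid.ker (f.X.cellv (u * b) k)) : FL (Lab.ofZ X k).T) (Lab.ofZ X k).v /
      (S.F k).n) :=
    Part.Bd.ub (S := (Lab.ofZ X).sp) (A := fun k => fc (Setoid.ker (f.X.cellv (u * b) k)))
      (rpI_Bd ((f.X.bdd (u * b)).toInf)) (fun k => (Lab.ofZ X k).v)
  have hU2 : UB (fun k => H (fc (Setoid.ker (z.X.cellv b k)) : FL (((Lab.ofZ W).ovr u hu).F k)) /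
      (((Lab.ofZ W).ovr u hu).F k).n) := by
    have h2 := Part.Bd.ub (S := (Lab.ofZ W).ovr u hu) (A := fun k => fc (Setoid.ker (z.X.cellv b k)))
      (rpI_Bd ((z.X.bdd b).toInf)) (fun k => ⊥)
    simp_rw [h_bot] at h2
    exact h2
  refine le_of_forall_pos_le_add fun ε hε => ?_
  have t1 := (ul_tendsto hU2).eventually (ge_mem_nhds (show ul (fun k =>
    H (fc (Setoid.ker (z.X.cellv b k)) : FL (((Lab.ofZ W).ovr u hu).F k)) / (((Lab.ofZ W).ovr u hu).F k).n) <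
      d + ε / (4 * u) by
      have e2 : 0 < ε / (4 * u) := by positivity
      exact lt_of_eq_of_lt e1.symm (lt_of_le_of_lt hd (lt_add_of_pos_right d e2))))
  have t2 : ∀ᶠ k in UF, h (fc (Setoid.ker (f.X.cellv (u * b) k)) : FL (((Lab.ofZ W).ovr u hu).F k))
      (fc (X k ⊓ Setoid.ker (z.X.cellv b k) : Setoid (S.F k).Ω)) / (((Lab.ofZ W).ovr u hu).F k).n < ε / (4 * u) :=
    Tendsto.eventually hk (gt_mem_nhds (by positivity))
  have t3 : ∀ᶠ k in UF, h (fc (X k)) (fc (W k)) / (S.F k).n < ε / 4 :=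
    Tendsto.eventually hXW (gt_mem_nhds (by positivity))
  have t4 : ∀ᶠ k in UF, h (fc (W k)) (fc (X k)) / (S.F k).n < ε / 4 :=
    Tendsto.eventually hWX (gt_mem_nhds (by positivity))
  refine ul_le_const hU ?_
  filter_upwards [t1, t2, t3, t4] with k a1 a2 a3 a4
  have hn' : (((Lab.ofZ W).ovr u hu).F k).n = u * (S.F k).n := (Lab.ofZ W).n_over u hu k
  have hn0 := (S.F k).pos
  -- all conditional entropies in the space itself
  have b1 : h (fc (Setoid.ker (f.X.cellv (u * b) k)) : FL (((Lab.ofZ W).ovr u hu).F k))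
      (fc (X k ⊓ Setoid.ker (z.X.cellv b k) : Setoid (S.F k).Ω)) =
      h (fc (Setoid.ker (f.X.cellv (u * b) k)) : FL (S.F k))
        (fc (W k) ⊔ fc (X k ⊓ Setoid.ker (z.X.cellv b k) : Setoid (S.F k).Ω)) := h_ovr (Lab.ofZ W) u hu k _ _
  have b2 := H_ofZ (W := W) hu (fun k => (Setoid.ker (z.X.cellv b k) : Setoid (S.F k).Ω)) k
  have e3 : (fc (X k ⊓ Setoid.ker (z.X.cellv b k) : Setoid (S.F k).Ω) : FL (S.F k)) =
    fc (X k) ⊔ fc (Setoid.ker (z.X.cellv b k)) := rfl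
  have b3 : h (fc (Setoid.ker (f.X.cellv (u * b) k)) : FL (S.F k)) (fc (X k)) ≤
      h (fc (W k)) (fc (X k)) + (h (fc (X k)) (fc (W k)) + h (fc (Setoid.ker (z.X.cellv b k)) : FL (S.F k)) (fc (W k)) +
        h (fc (Setoid.ker (f.X.cellv (u * b) k)) : FL (S.F k))
        (fc (W k) ⊔ fc (X k ⊓ Setoid.ker (z.X.cellv b k) : Setoid (S.F k).Ω))) := by
    have c1 : h (fc (Setoid.ker (f.X.cellv (u * b) k)) : FL (S.F k)) (fc (X k)) ≤
        h (fc (Setoid.ker (f.X.cellv (u * b) k)) : FL (S.F k)) (fc (W k)) + h (fc (W k)) (fc (X k)) :=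
      h_triangle' _ _ _
    have c2 : h (fc (Setoid.ker (f.X.cellv (u * b) k)) : FL (S.F k)) (fc (W k)) ≤
        h (fc (Setoid.ker (f.X.cellv (u * b) k)) : FL (S.F k))
          (fc (W k) ⊔ fc (X k ⊓ Setoid.ker (z.X.cellv b k) : Setoid (S.F k).Ω)) +
        h (fc (W k) ⊔ fc (X k ⊓ Setoid.ker (z.X.cellv b k) : Setoid (S.F k).Ω) : FL (S.F k)) (fc (W k)) :=
      h_triangle' _ _ _
    have c3 : h (fc (W k) ⊔ fc (X k ⊓ Setoid.ker (z.X.cellv b k) : Setoid (S.F k).Ω) : FL (S.F k)) (fc (W k)) ≤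
        h (fc (W k) : FL (S.F k)) (fc (W k)) +
          h (fc (X k ⊓ Setoid.ker (z.X.cellv b k) : Setoid (S.F k).Ω) : FL (S.F k)) (fc (W k)) := h_sup_le _ _ _
    have c4 : h (fc (X k ⊓ Setoid.ker (z.X.cellv b k) : Setoid (S.F k).Ω) : FL (S.F k)) (fc (W k)) ≤
        h (fc (X k)) (fc (W k)) + h (fc (Setoid.ker (z.X.cellv b k)) : FL (S.F k)) (fc (W k)) := by
      rw [e3]
      exact h_sup_le _ _ _
    rw [h_self, zero_add] at c3
    linarith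
  rw [b1, hn', div_lt_iff₀ (by positivity)] at a2
  have b2' : H (fc (Setoid.ker (z.X.cellv b k)) : FL (((Lab.ofZ W).ovr u hu).F k)) =
    h (fc (Setoid.ker (z.X.cellv b k)) : FL (S.F k)) (fc (W k)) := b2
  have a1' : h (fc (Setoid.ker (z.X.cellv b k)) : FL (S.F k)) (fc (W k)) ≤ (d + ε / (4 * u)) * (u * (S.F k).n) := by
    rw [b2', hn', div_le_iff₀ (by positivity)] at a1
    exact a1
  rw [div_lt_iff₀ hn0] at a3 a4
  show h (fc (Setoid.ker (f.X.cellv (u * b) k)) : FL (S.F k)) (fc (X k)) / (S.F k).n ≤ u * d + ε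
  rw [div_le_iff₀ hn0]
  have e4 : ε / (4 * u) * (u * (S.F k).n) = ε / 4 * (S.F k).n := by
    field_simp
  have e5 : (d + ε / (4 * u)) * (u * (S.F k).n) = u * d * (S.F k).n + ε / 4 * (S.F k).n := by
    rw [add_mul, e4]
    ring
  rw [e5] at a1'
  rw [e4] at a2
  have e6 : (u * d + ε) * (S.F k).n = ε / 4 * (S.F k).n + (ε / 4 * (S.F k).n + (u * d * (S.F k).n + ε / 4 * (S.F k).n) +
    ε / 4 * (S.F k).n) := by ring
  rw [e6]
  linarith

end

end Pool.Agent.Helper48.FLF
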