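import Pool.Agent.Helper70.CPW.Dgt
import Pool.Agent.Helper59.OKD.Ta
import Pool.Agent.Helper40.PB.Rep

/-! TRIANGULAR ROWS in the coordinates of a frame: derivatives and comparison of points which agree in the first
coordinates. -/

set_option autoImplicit false

namespace Pool.Agent.Helper48.FLF

open Finset Filter Topology MvPolynomial Pool.Agent.Helper69.RK Pool.Agent.Helper31.EC Pool.Agent.Helper31.EC.Sp
open Pool.Agent.Helper40.EL Pool.Agent.Helper84.MT Pool.Agent.Helper89.LX Pool.Agent.Helper3.LF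
open Pool.Agent.Helper95.LF Pool.Agent.Helper36.AM Pool.Agent.Helper7.GZ Pool.Agent.Helper26.BXD
open Pool.Agent.Helper81.MI (totalDegree_bind eval_bind)
open Pool.Agent.Helper70.CPW (lip_cf)

noncomputable section

variable {M : ℕ}

theorem scl_vars (d : Fin M → ℝ) {p : MvPolynomial (Fin M) ℝ} {q : Fin M → Prop} (hp : ∀ i ∈ p.vars, q i) :
    ∀ i ∈ (bind₁ (fun i => C (d i) * X i : Fin M → MvPolynomial (Fin M) ℝ) p).vars, q i := by
  classical
  intro i hi
  obtain ⟨a, ha, hia⟩ := mem_vars_bind₁ _ _ hi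
  have h1 : i ∈ (X a : MvPolynomial (Fin M) ℝ).vars := by
    have h2 := (MvPolynomial.vars_mul (C (d a)) (X a : MvPolynomial (Fin M) ℝ)) hia
    rw [vars_C, Finset.empty_union] at h2
    exact h2
  rw [vars_X, Finset.mem_singleton] at h1
  rw [h1]
  exact hp a ha

theorem chp_vars {P : Fin M → MvPolynomial (Fin M) ℝ} (tri : ∀ j, ∀ i ∈ (P j).vars, i < j) (d : Fin M → ℝ)
    (j : Fin M) : ∀ i ∈ (chp P d j).vars, i ≤ j := by
  classical
  intro i hi
  rcases Finset.mem_union.mp (vars_add_subset _ _ hi) with h | h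
  · exact (scl_vars d (q := fun i => i < j) (tri j) i h).le
  · have h2 := (MvPolynomial.vars_mul (C (d j)) (X j : MvPolynomial (Fin M) ℝ)) h
    rw [vars_C, Finset.empty_union, vars_X, Finset.mem_singleton] at h2
    exact h2.le

theorem row_vars {P : Fin M → MvPolynomial (Fin M) ℝ} (tri : ∀ j, ∀ i ∈ (P j).vars, i < j) (d : Fin M → ℝ)
    {j : Fin M} {p : MvPolynomial (Fin M) ℝ} (hp : ∀ i ∈ p.vars, i ≤ j) :
    ∀ i ∈ (bind₁ (chp P d) p).vars, i ≤ j := by
  intro i hi
  obtain ⟨a, ha, hia⟩ := mem_vars_bind₁ _ _ hi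
  exact (chp_vars tri d a i hia).trans (hp a ha)

/-- THE DERIVATIVE of a triangular row in the coordinates of the frame, in its own direction -/
theorem row_pderiv {P : Fin M → MvPolynomial (Fin M) ℝ} (tri : ∀ j, ∀ i ∈ (P j).vars, i < j) (d : Fin M → ℝ)
    {j : Fin M} {p : MvPolynomial (Fin M) ℝ} (hp : ∀ i ∈ p.vars, i ≤ j) (x : Fin M → ℝ) :
    eval x (pderiv j (bind₁ (chp P d) p)) = eval (fun i => eval x (chp P d i)) (pderiv j p) * d j := by
  classical
  rw [Pool.Agent.Helper36.AM.pderiv_bind, map_sum, Finset.sum_eq_single j]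
  · rw [map_mul, eval_bind]
    congr 1
    unfold chp
    rw [map_add, pderiv_C_mul, pderiv_X_self, mul_one]
    have h1 : pderiv j (bind₁ (fun i => C (d i) * X i : Fin M → MvPolynomial (Fin M) ℝ) (P j)) = 0 := by
      apply pderiv_eq_zero_of_notMem_vars
      intro h
      exact lt_irrefl j (scl_vars d (q := fun i => i < j) (tri j) j h)
    rw [h1, zero_add, eval_C]
  · intro i _ hij
    rcases lt_or_gt_of_ne hij with h | h
    · have h1 : pderiv j (chp P d i) = 0 := by
        apply pderiv_eq_zero_of_notMem_vars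
        intro h2
        exact absurd (chp_vars tri d i j h2) (not_le.mpr h)
      rw [h1, mul_zero, map_zero]
    · have h1 : pderiv i p = 0 := by
        apply pderiv_eq_zero_of_notMem_vars
        intro h2
        exact absurd (hp i h2) (not_le.mpr h)
      rw [h1, map_zero, zero_mul, map_zero]
  · intro h
    exact absurd (Finset.mem_univ j) h

/-- points which are close in the variables `< j`: the value at the first point with the coordinate `j` replaced -/
theorem upd_close {p : ℕ} {T : MvPolynomial (Fin M) ℝ} (hT : T.totalDegree ≤ p) {j : Fin M} (hv : ∀ i ∈ T.vars, i ≤ j)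
    {K R δ : ℝ} (hK : 0 ≤ K) (hc : ∀ a, |coeff a T| ≤ K) (hR : 1 ≤ R) (hδ : 0 ≤ δ) (x x' : Fin M → ℝ)
    (hx : ∀ i, |x i| + δ ≤ R) (hx' : ∀ i, |x' i| + δ ≤ R) (h : ∀ i, i < j → |x' i - x i| ≤ δ) :
    |eval (Function.update x j (x' j)) T - eval x' T| ≤ M * (((p : ℝ) + 1) ^ M * (K * (p * R ^ p))) * δ := by
  have e1 : eval x' T = eval (fun i => if i ≤ j then x' i else x i) T :=
    Pool.Agent.Helper36.AM.eval_congr T fun i hi => by rw [if_pos (hv i hi)]
  rw [e1, abs_sub_comm]
  refine lip_cf T hT hR hK hδ hc (Function.update x j (x' j)) (fun i => if i ≤ j then x' i else x i) (fun i => ?_)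
    fun i => ?_
  · by_cases hi : i = j
    · rw [hi, Function.update_self]
      exact hx' j
    · rw [Function.update_of_ne hi]
      exact hx i
  · by_cases hi : i = j
    · rw [hi, Function.update_self, if_pos le_rfl, sub_self, abs_zero]
      exact hδ
    · rw [Function.update_of_ne hi]
      by_cases h2 : i ≤ j
      · rw [if_pos h2]
        exact h i (lt_of_le_of_ne h2 hi)
      · rw [if_neg h2, sub_self, abs_zero]
        exact hδ

end

end Pool.Agent.Helper48.FLF
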